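import Pool.Agent.Helper87.TB.St
import Pool.Agent.Helper26.CovL.Syn

/-!
# Project TB (MP_e73f90_co), module BU: blow-up of a greedy labelling
-/

set_option autoImplicit false

noncomputable section

namespace Pool.Agent.Helper84.TB

open Finset Pool.Agent.Helper87.TB
open scoped Classical

theorem add_self_zero {Q : Type} [AddCommGroup Q] [Module (ZMod 2) Q] (q : Q) : q + q = 0 := by
  have h : ((1 : ZMod 2) + 1) • q = q + q := by rw [add_smul, one_smul]
  rw [← h]
  have h2 : (1 : ZMod 2) + 1 = 0 := by decide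
  rw [h2, zero_smul]

theorem lc_ind {n : ℕ} {Q : Type} [AddCommGroup Q] [Module (ZMod 2) Q] (h : Fin n → Q)
    (T : Finset (Fin n)) :
    Fintype.linearCombination (ZMod 2) h (ind T) = ∑ i ∈ T, h i := by
  rw [Fintype.linearCombination_apply]
  have h1 : ∀ i : Fin n, ind T i • h i = if i ∈ T then h i else 0 := by
    intro i
    unfold ind
    by_cases hi : i ∈ T
    · rw [if_pos hi, if_pos hi, one_smul]
    · rw [if_neg hi, if_neg hi, zero_smul]
  rw [Finset.sum_congr rfl fun i _ => h1 i, Finset.sum_ite_mem, Finset.univ_inter]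

theorem norm_ind_le {n : ℕ} (T : Finset (Fin n)) : hammingNorm (ind T) ≤ T.card := by
  unfold hammingNorm
  apply Finset.card_le_card
  intro i hi
  by_contra hT
  have h1 : ind T i ≠ 0 := (Finset.mem_filter.1 hi).2
  apply h1
  unfold ind
  rw [if_neg hT]

theorem aBU : StBU := by
  intro r N c t hr hcN hc hNt ht
  obtain ⟨Q, _, _, _, h, hQ, hs⟩ := Pool.Agent.Helper26.CovL.exists_syn N r c hcN hc
  have : Fact (Nat.Prime 2) := ⟨Nat.prime_two⟩
  let F := GaloisField 2 t
  have : Finite F := inferInstance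
  have : Fintype F := Fintype.ofFinite _
  have hF : Fintype.card F = 2 ^ t := by
    rw [← Nat.card_eq_fintype_card]
    exact GaloisField.card 2 t (by omega)
  obtain ⟨β⟩ : Nonempty (Fin N ↪ F) := by
    apply Function.Embedding.nonempty_of_card_le
    rw [hF, Fintype.card_fin]
    exact hNt
  have hs' := hs.blowup β
  obtain ⟨col, hcol⟩ : ∃ col : Fin N × F → Q × (Fin r → F),
      col = fun p : Fin N × F => (h p.1, fun k : Fin r => p.2 * β p.1 ^ (k : ℕ)) := ⟨_, rfl⟩
  rw [← hcol] at hs'
  have hFF : ∀ a : F, a + a = 0 := fun a => add_self_zero a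
  have hcard : Fintype.card (Fin N × F) = N * 2 ^ t := by
    rw [Fintype.card_prod, Fintype.card_fin, hF]
  let σ : Fin (N * 2 ^ t) ≃ Fin N × F := (Fintype.equivFinOfCardEq hcard).symm
  let H : W (N * 2 ^ t) →ₗ[ZMod 2] (Q × (Fin r → F)) :=
    Fintype.linearCombination (ZMod 2) (fun i => col (σ i))
  have hH : ∀ T : Finset (Fin (N * 2 ^ t)), H (ind T) = ∑ i ∈ T, col (σ i) := fun T =>
    lc_ind (fun i => col (σ i)) T
  have hsyn : ∀ q : Q × (Fin r → F), ∃ T : Finset (Fin (N * 2 ^ t)), T.card = r ∧ H (ind T) = q := by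
    intro q
    obtain ⟨T, hTr, hT⟩ := hs' q
    refine ⟨T.map σ.symm.toEmbedding, by rw [Finset.card_map, hTr], ?_⟩
    rw [hH, Finset.sum_map, ← hT]
    apply Finset.sum_congr rfl
    intro i _
    rw [Equiv.coe_toEmbedding, Equiv.apply_symm_apply]
  have hsurj : Function.Surjective H := by
    intro q
    obtain ⟨T, _, hT⟩ := hsyn q
    exact ⟨ind T, hT⟩
  refine ⟨LinearMap.ker H, ?_, ?_, ?_⟩
  · intro y
    obtain ⟨T, hTr, hT⟩ := hsyn (H y)
    refine ⟨y - ind T, ?_, ?_⟩
    · rw [LinearMap.mem_ker, map_sub, hT, sub_self]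
    · rw [sub_sub_cancel, ← hTr]
      exact norm_ind_le T
  · have h1 := Submodule.card_eq_card_quotient_mul_card (LinearMap.ker H)
    have h2 : Nat.card (W (N * 2 ^ t) ⧸ LinearMap.ker H) = 2 ^ (c + t * r) := by
      rw [Nat.card_congr (H.quotKerEquivOfSurjective hsurj).toEquiv, Nat.card_eq_fintype_card,
        Fintype.card_prod, hQ, Fintype.card_fun, hF, Fintype.card_fin, ← pow_mul, ← pow_add]
    have h3 : Nat.card (W (N * 2 ^ t)) = 2 ^ (N * 2 ^ t) := by
      rw [Nat.card_eq_fintype_card, Fintype.card_fun, ZMod.card, Fintype.card_fin]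
    rw [h2, h3] at h1
    exact h1.symm
  · intro S hS
    obtain ⟨i, hi, j, hj, hij, hfst⟩ := Finset.exists_ne_map_eq_of_card_lt_of_maps_to
      (s := S) (t := (Finset.univ : Finset (Fin N))) (f := fun i => (σ i).1)
      (by rw [hS, Finset.card_univ, Fintype.card_fin]; exact Nat.lt_succ_self N)
      (fun i _ => Finset.mem_coe.2 (Finset.mem_univ _))
    have hfst' : (σ i).1 = (σ j).1 := hfst
    refine ⟨i, hi, j, hj, hij, ?_⟩
    obtain ⟨a0, ha0⟩ : ∃ a0, a0 = (σ i).1 := ⟨_, rfl⟩
    obtain ⟨d, hd⟩ : ∃ d : F, d = (σ i).2 + (σ j).2 := ⟨_, rfl⟩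
    have hd0 : d ≠ 0 := by
      intro h0
      apply hij
      apply σ.injective
      refine Prod.ext hfst' ?_
      have h4 : (σ i).2 + (σ j).2 = (σ j).2 + (σ j).2 := by rw [← hd, h0, hFF]
      exact add_right_cancel h4
    have hcoladd : ∀ x y : F, col (a0, x) + col (a0, y) =
        (0, fun k : Fin r => (x + y) * β a0 ^ (k : ℕ)) := by
      intro x y
      rw [hcol]
      refine Prod.ext ?_ ?_
      · exact add_self_zero _
      · funext k
        exact (add_mul _ _ _).symm
    have hne : ∀ a : F, a ≠ a + d := by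
      intro a h4
      exact hd0 (left_eq_add.1 h4)
    let K : F → Finset (Fin (N * 2 ^ t)) := fun a => {σ.symm (a0, a), σ.symm (a0, a + d)}
    have hKne : ∀ a, σ.symm (a0, a) ≠ σ.symm (a0, a + d) := by
      intro a h4
      exact hne a (Prod.mk.inj (σ.symm.injective h4)).2
    have hKcard : ∀ a, (K a).card = 2 := fun a => Finset.card_pair (hKne a)
    have hKH : ∀ a, H (ind (K a)) = (0, fun k : Fin r => d * β a0 ^ (k : ℕ)) := by
      intro a
      rw [hH, Finset.sum_pair (hKne a), Equiv.apply_symm_apply, Equiv.apply_symm_apply, hcoladd,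
        ← add_assoc, hFF, zero_add]
    have hJH : H (ind {i, j}) = (0, fun k : Fin r => d * β a0 ^ (k : ℕ)) := by
      rw [hH, Finset.sum_pair hij]
      have h5 : σ i = (a0, (σ i).2) := Prod.ext ha0.symm rfl
      have h6 : σ j = (a0, (σ j).2) := Prod.ext (by rw [ha0]; exact hfst'.symm) rfl
      rw [h5, h6, hcoladd, ← hd]
    have hsub : (Finset.univ.image K) ⊆ univ.filter
        (fun K' : Finset (Fin (N * 2 ^ t)) => K'.card = ({i, j} : Finset (Fin (N * 2 ^ t))).card ∧
          ind {i, j} + ind K' ∈ LinearMap.ker H) := by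
      intro K' hK'
      obtain ⟨a, _, rfl⟩ := Finset.mem_image.1 hK'
      refine Finset.mem_filter.2 ⟨Finset.mem_univ _, ?_, ?_⟩
      · rw [hKcard, Finset.card_pair hij]
      · rw [LinearMap.mem_ker, map_add, hKH, hJH]
        exact add_self_zero _
    have hfib : (Finset.univ : Finset F).card ≤ 2 * (Finset.univ.image K).card := by
      apply Finset.card_le_mul_card_image
      intro K' hK'
      obtain ⟨a, _, rfl⟩ := Finset.mem_image.1 hK'
      have h7 : (Finset.univ.filter fun x : F => K x = K a) ⊆ {a, a + d} := by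
        intro x hx
        have h8 : K x = K a := (Finset.mem_filter.1 hx).2
        have h9 : σ.symm (a0, x) ∈ K a := by
          rw [← h8]
          exact Finset.mem_insert_self _ _
        rw [Finset.mem_insert, Finset.mem_singleton] at h9 ⊢
        rcases h9 with h9 | h9
        · left
          exact (Prod.mk.inj (σ.symm.injective h9)).2
        · right
          exact (Prod.mk.inj (σ.symm.injective h9)).2
      exact (Finset.card_le_card h7).trans Finset.card_le_two
    rw [Finset.card_univ, hF] at hfib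
    have h10 := Finset.card_le_card hsub
    have h11 : 2 ^ t = 2 * 2 ^ (t - 1) := by
      rw [← pow_succ']
      congr 1
      omega
    show 2 ^ (t - 1) ≤ mult (LinearMap.ker H) {i, j}
    unfold mult
    omega

end Pool.Agent.Helper84.TB

end
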